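import Pool.Agent.Y382.PAR.Stm

/-!
# Normal subgroups whose quotient has a complete mapping (author helper410)
-/

set_option autoImplicit false

namespace Pool.Agent.Y410.PAR

open Pool.Agent.Y382.PAR

universe u

section

variable {G : Type u} [Group G] {N : Subgroup G} [N.Normal] {x y : G ⧸ N → G}

theorem mem_nn (hx : ∀ i, ((x i : G) : G ⧸ N) = i) (g : G) : g * (x (g : G ⧸ N))⁻¹ ∈ N := by
  rw [← QuotientGroup.eq_one_iff, QuotientGroup.mk_mul, QuotientGroup.mk_inv, hx, mul_inv_cancel]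

/-- the part in `N` -/
def nn (hx : ∀ i, ((x i : G) : G ⧸ N) = i) (g : G) : N := ⟨g * (x (g : G ⧸ N))⁻¹, mem_nn hx g⟩

/-- the map -/
def ff (hx : ∀ i, ((x i : G) : G ⧸ N) = i) (y : G ⧸ N → G) (Φ : G ⧸ N → N → N) (g : G) : G :=
  (x (g : G ⧸ N))⁻¹ * (Φ (g : G ⧸ N) (nn hx g) : G) * x (g : G ⧸ N) * y (g : G ⧸ N)

theorem mk_mem (n : N) : (((n : N) : G) : G ⧸ N) = 1 := (QuotientGroup.eq_one_iff _).2 n.2

theorem mk_ff (hx : ∀ i, ((x i : G) : G ⧸ N) = i) (Φ : G ⧸ N → N → N) (g : G) :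
    ((ff hx y Φ g : G) : G ⧸ N) = ((y (g : G ⧸ N) : G) : G ⧸ N) := by
  unfold ff
  rw [QuotientGroup.mk_mul, QuotientGroup.mk_mul, QuotientGroup.mk_mul, QuotientGroup.mk_inv, hx,
    mk_mem, mul_one, inv_mul_cancel, one_mul]

theorem mul_ff (hx : ∀ i, ((x i : G) : G ⧸ N) = i) (Φ : G ⧸ N → N → N) (g : G) :
    g * ff hx y Φ g = ((nn hx g * Φ (g : G ⧸ N) (nn hx g) : N) : G) * x (g : G ⧸ N) *
      y (g : G ⧸ N) := by
  unfold ff
  have h : ((nn hx g : N) : G) = g * (x (g : G ⧸ N))⁻¹ := rfl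
  rw [Subgroup.coe_mul, h]
  simp only [mul_assoc]

theorem of_nn (hx : ∀ i, ((x i : G) : G ⧸ N) = i) {g h : G} (e : (g : G ⧸ N) = (h : G ⧸ N))
    (e' : nn hx g = nn hx h) : g = h := by
  have h1 : g * (x (g : G ⧸ N))⁻¹ = h * (x (h : G ⧸ N))⁻¹ := congrArg Subtype.val e'
  rw [e] at h1
  exact mul_right_cancel h1

theorem ff_inj (hx : ∀ i, ((x i : G) : G ⧸ N) = i) {Φ : G ⧸ N → N → N}
    (hy : Function.Injective fun i => ((y i : G) : G ⧸ N)) (hΦ : ∀ i, Function.Injective (Φ i)) :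
    Function.Injective (ff hx y Φ) := by
  intro g h e
  have h1 : (g : G ⧸ N) = (h : G ⧸ N) := by
    apply hy
    have h2 := congrArg (fun z : G => (z : G ⧸ N)) e
    simp only [mk_ff] at h2
    exact h2
  unfold ff at e
  rw [h1] at e
  have h3 := mul_left_cancel (mul_right_cancel (mul_right_cancel e))
  exact of_nn hx h1 (hΦ _ (Subtype.ext h3))

theorem mul_ff_inj (hx : ∀ i, ((x i : G) : G ⧸ N) = i) {Φ : G ⧸ N → N → N}
    (hy : Function.Injective fun i => i * ((y i : G) : G ⧸ N))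
    (hΦ : ∀ i, Function.Injective fun n => n * Φ i n) :
    Function.Injective (fun g => g * ff hx y Φ g) := by
  intro g h e
  simp only at e
  have h1 : (g : G ⧸ N) = (h : G ⧸ N) := by
    apply hy
    have h2 := congrArg (fun z : G => (z : G ⧸ N)) e
    simp only [QuotientGroup.mk_mul, mk_ff] at h2
    exact h2
  rw [mul_ff, mul_ff, h1] at e
  have h3 := mul_right_cancel (mul_right_cancel e)
  exact of_nn hx h1 (hΦ _ (Subtype.ext h3))

end

theorem sgn_ofSubtype {G : Type u} [Group G] [Finite G] (N : Subgroup G)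
    [DecidablePred (· ∈ N)] (f : Equiv.Perm N) :
    sgn (Equiv.Perm.ofSubtype f : Equiv.Perm G) = sgn f := by
  classical
  have := Fintype.ofFinite G
  rw [sgn_eq, sgn_eq]
  exact Equiv.Perm.sign_ofSubtype f

theorem t_EXT : S_EXT.{u} := by
  classical
  intro G _ _ N _ hQ hN
  obtain ⟨η0, H0, hH0⟩ := hQ
  -- normalisation
  obtain ⟨i0, hi0⟩ := H0.surjective 1
  rw [hH0] at hi0
  set η : G ⧸ N → G ⧸ N := fun i => i0 * η0 (i * i0) with hη
  have hη1 : η 1 = 1 := by
    rw [hη]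
    simp only [one_mul]
    exact hi0
  have hηi : Function.Injective η := by
    intro i j e
    exact mul_right_cancel (η0.injective (mul_left_cancel e))
  have hηi' : Function.Injective fun i => i * η i := by
    intro i j e
    have h1 : H0 (i * i0) = H0 (j * i0) := by
      rw [hH0, hH0, mul_assoc, mul_assoc]
      exact e
    exact mul_right_cancel (H0.injective h1)
  -- sections
  set x : G ⧸ N → G := fun i => if i = 1 then 1 else Quotient.out i with hxdef
  have hx1 : x 1 = 1 := by rw [hxdef]; simp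
  have hx : ∀ i, ((x i : G) : G ⧸ N) = i := by
    intro i
    rw [hxdef]
    by_cases hi : i = 1
    · simp [hi]
    · simp only [hi, if_false]
      exact QuotientGroup.out_eq' i
  set y : G ⧸ N → G := fun i => x (η i) with hydef
  have hy : ∀ i, ((y i : G) : G ⧸ N) = η i := fun i => hx _
  have hy1 : y 1 = 1 := by
    rw [hydef]
    simp only [hη1, hx1]
  have hyi : Function.Injective fun i => ((y i : G) : G ⧸ N) := by
    simp only [hy]
    exact hηi
  have hyi' : Function.Injective fun i => i * ((y i : G) : G ⧸ N) := by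
    simp only [hy]
    exact hηi'
  obtain ⟨φ, Φ, hφ, -, -⟩ := hN 1 1
  -- the family
  have hmk : ∀ ψ Ψ : Equiv.Perm N, (∀ n, Ψ n = n * ψ n) → ∃ f F : Equiv.Perm G,
      (∀ g, F g = g * f g) ∧
      (∀ g, f g = ff hx y (fun i n => if i = 1 then ψ n else φ n) g) := by
    intro ψ Ψ hψ
    have h1 : Function.Injective (ff hx y (fun i n => if i = 1 then ψ n else φ n)) := by
      refine ff_inj hx hyi fun i => ?_
      by_cases hi : i = 1
      · simp only [hi, if_true]
        exact ψ.injective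
      · simp only [hi, if_false]
        exact φ.injective
    have h2 : Function.Injective (fun g => g * ff hx y (fun i n => if i = 1 then ψ n else φ n) g) := by
      refine mul_ff_inj hx hyi' fun i => ?_
      by_cases hi : i = 1
      · simp only [hi, if_true, ← hψ]
        exact Ψ.injective
      · simp only [hi, if_false, ← hφ]
        exact Φ.injective
    exact ⟨Equiv.ofBijective _ (Finite.injective_iff_bijective.1 h1),
      Equiv.ofBijective _ (Finite.injective_iff_bijective.1 h2), fun g => rfl, fun g => rfl⟩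
  have hin : ∀ (ψ : Equiv.Perm N) (n : N),
      ff hx y (fun i n => if i = 1 then ψ n else φ n) (n : G) = (ψ n : G) := by
    intro ψ n
    have h1 : nn hx (n : G) = n := by
      apply Subtype.ext
      show (n : G) * (x ((n : G) : G ⧸ N))⁻¹ = n
      rw [mk_mem, hx1, inv_one, mul_one]
    unfold ff
    rw [h1, mk_mem, hx1, hy1]
    simp
  have hout : ∀ (ψ : Equiv.Perm N) (g : G), g ∉ N →
      ff hx y (fun i n => if i = 1 then ψ n else φ n) g =
        ff hx y (fun i n => if i = 1 then φ n else φ n) g := by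
    intro ψ g hg
    have h1 : (g : G ⧸ N) ≠ 1 := fun h => hg ((QuotientGroup.eq_one_iff g).1 h)
    unfold ff
    simp only [h1, if_false]
  obtain ⟨f0, F0, hF0, hf0⟩ := hmk φ Φ hφ
  intro ε δ
  obtain ⟨ψ, Ψ, hψ, hψε, hΨδ⟩ := hN (ε * sgn f0 * sgn φ) (δ * sgn F0 * sgn Φ)
  obtain ⟨f, F, hF, hf⟩ := hmk ψ Ψ hψ
  have e1 : f = f0 * Equiv.Perm.ofSubtype (φ⁻¹ * ψ) := by
    ext g
    rw [Equiv.Perm.mul_apply]
    by_cases hg : g ∈ N
    · rw [Equiv.Perm.ofSubtype_apply_of_mem _ hg, hf0, hf, hin φ]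
      have h1 := hin ψ ⟨g, hg⟩
      rw [h1]
      simp
    · rw [Equiv.Perm.ofSubtype_apply_of_not_mem _ hg, hf0, hf]
      exact hout ψ g hg
  have e2 : F = F0 * Equiv.Perm.ofSubtype (Φ⁻¹ * Ψ) := by
    ext g
    rw [Equiv.Perm.mul_apply]
    by_cases hg : g ∈ N
    · rw [Equiv.Perm.ofSubtype_apply_of_mem _ hg, hF0, hF, hf0, hf, hin φ]
      have h1 := hin ψ ⟨g, hg⟩
      rw [h1]
      have h2 := hφ ((Φ⁻¹ * Ψ) ⟨g, hg⟩)
      have h2' : Φ ((Φ⁻¹ * Ψ) ⟨g, hg⟩) = Ψ ⟨g, hg⟩ := by simp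
      rw [h2'] at h2
      have h3 := hψ ⟨g, hg⟩
      rw [h2] at h3
      have h4 := congrArg Subtype.val h3
      rw [Subgroup.coe_mul, Subgroup.coe_mul] at h4
      exact h4.symm
    · rw [Equiv.Perm.ofSubtype_apply_of_not_mem _ hg, hF0, hF, hf0, hf, hout ψ g hg]
  refine ⟨f, F, hF, ?_, ?_⟩
  · rw [e1, sgn_mul, sgn_ofSubtype, sgn_mul, sgn_inv, hψε]
    have h1 := Int.units_mul_self (sgn f0)
    have h2 := Int.units_mul_self (sgn φ)
    calc sgn f0 * (sgn φ * (ε * sgn f0 * sgn φ)) = ε * (sgn f0 * sgn f0) * (sgn φ * sgn φ) := by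
          simp only [mul_comm, mul_left_comm, mul_assoc]
      _ = ε := by rw [h1, h2, mul_one, mul_one]
  · rw [e2, sgn_mul, sgn_ofSubtype, sgn_mul, sgn_inv, hΨδ]
    have h1 := Int.units_mul_self (sgn F0)
    have h2 := Int.units_mul_self (sgn Φ)
    calc sgn F0 * (sgn Φ * (δ * sgn F0 * sgn Φ)) = δ * (sgn F0 * sgn F0) * (sgn Φ * sgn Φ) := by
          simp only [mul_comm, mul_left_comm, mul_assoc]
      _ = δ := by rw [h1, h2, mul_one, mul_one]

end Pool.Agent.Y410.PAR
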